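import Pool.Agent.TH304.POS.Rel

set_option autoImplicit false

open MeasureTheory Set Filter Topology
open scoped ENNReal NNReal

namespace Pool.Agent.TH304.POS

open Pool.Agent.TH268.NP

lemma mem_J_iff (t : ℝ) : t ∈ J ↔ |t| ≤ 1 / 2 := by
  unfold J; rw [mem_Icc, abs_le]

lemma fp_dens (p : Polynomial ℝ) : ∃ M, Dens (fp p) M := by
  have hc : Continuous (fun t : ℝ => Real.exp t * p.eval (Real.exp (2 * t))) := by
    have := p.continuous
    fun_prop
  obtain ⟨M, hM⟩ := (isCompact_Icc (a := -(1 / 2 : ℝ)) (b := 1 / 2)).exists_bound_of_continuousOn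
    hc.continuousOn
  have hM0 : 0 ≤ M := (norm_nonneg _).trans (hM 0 ⟨by norm_num, by norm_num⟩)
  refine ⟨M, ?_, ?_, ?_⟩
  · unfold fp
    apply Measurable.ite _ hc.measurable measurable_const
    exact measurableSet_le (by fun_prop) measurable_const
  · intro t
    unfold fp
    split_ifs with h
    · exact hM t ((mem_J_iff t).2 h)
    · simpa using hM0
  · intro t ht
    unfold fp
    rw [if_neg (fun h => ht ((mem_J_iff t).2 h))]

/-- moments -/
noncomputable def Mo (f : ℝ → ℝ) (k : ℕ) : ℝ := ∫ t in J, f t * Real.exp ((2 * k + 1) * t)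

lemma int_bdd {f : ℝ → ℝ} {M : ℝ} (hf : Dens f M) {g : ℝ → ℝ} (hg : ContinuousOn g J) :
    Integrable (fun t => f t * g t) (volume.restrict J) := by
  have hM := hf.nonneg
  have hcomp : IsCompact J := isCompact_Icc
  obtain ⟨C, hC⟩ := hcomp.exists_bound_of_continuousOn hg
  refine Integrable.mono' (integrable_const (M * C))
    (hf.meas.aestronglyMeasurable.mul (hg.aestronglyMeasurable measurableSet_Icc)) ?_
  filter_upwards [ae_restrict_mem measurableSet_Icc] with t ht
  rw [norm_mul, Real.norm_eq_abs]
  have h1 := hf.bd t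
  have h2 := hC t ht
  gcongr

lemma inv_sinh (a : ℝ) (ha : 0 < a) (k : ℕ) : 1 / Real.sinh a =
    2 * (∑ j ∈ Finset.range k, Real.exp (-((2 * j + 1) * a)) +
      Real.exp (-((2 * k + 1) * a)) / (1 - Real.exp (-2 * a))) := by
  have hlt : Real.exp (-2 * a) < 1 := by rw [Real.exp_lt_one_iff]; linarith
  have h0 : (1 - Real.exp (-2 * a)) ≠ 0 := by linarith
  induction k with
  | zero =>
    have hs := Real.sinh_pos_iff.2 ha
    rw [Finset.sum_range_zero, zero_add, Real.sinh_eq]
    have e1 : Real.exp (-2 * a) = Real.exp (-a) * Real.exp (-a) := by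
      rw [← Real.exp_add]; congr 1; ring
    have e2 : Real.exp (-((2 * ((0 : ℕ) : ℝ) + 1) * a)) = Real.exp (-a) := by
      congr 1; push_cast; ring
    have e3 : Real.exp a * Real.exp (-a) = 1 := by rw [← Real.exp_add]; simp
    have e4 : Real.exp a - Real.exp (-a) ≠ 0 := by
      have : Real.exp (-a) < Real.exp a := Real.exp_lt_exp.2 (by linarith)
      linarith
    rw [e2, e1]
    have e5 : 1 - Real.exp (-a) * Real.exp (-a) = Real.exp (-a) * (Real.exp a - Real.exp (-a)) := by
      rw [mul_sub, mul_comm (Real.exp (-a)) (Real.exp a), e3]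
    rw [e5]
    have e6 := Real.exp_pos (-a)
    field_simp
  | succ k ih =>
    rw [ih, Finset.sum_range_succ]
    have e1 : Real.exp (-((2 * ((k + 1 : ℕ) : ℝ) + 1) * a)) =
        Real.exp (-((2 * k + 1) * a)) * Real.exp (-2 * a) := by
      rw [← Real.exp_add]; congr 1; push_cast; ring
    rw [e1]
    have e2 : Real.exp (-((2 * (k : ℝ) + 1) * a)) / (1 - Real.exp (-2 * a)) =
        Real.exp (-((2 * (k : ℝ) + 1) * a)) + Real.exp (-((2 * (k : ℝ) + 1) * a)) *
          Real.exp (-2 * a) / (1 - Real.exp (-2 * a)) := by
      generalize Real.exp (-((2 * (k : ℝ) + 1) * a)) = E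
      generalize Real.exp (-2 * a) = q at h0
      field_simp
      ring
    rw [e2, add_assoc]

/-- if the potentials vanish at arbitrarily large points of the middle line, all moments vanish -/
lemma moments {f : ℝ → ℝ} {M : ℝ} (hf : Dens f M)
    (h : ∃ᶠ s in (atTop : Filter ℝ), ∫ t in J, f t * (1 / Real.sinh (s - t)) = 0) (k : ℕ) :
    Mo f k = 0 := by
  induction k using Nat.strong_induction_on with
  | _ k ih =>
    set R : ℝ → ℝ := fun s => ∫ t in J, f t * (Real.exp ((2 * k + 1) * t) /
      (1 - Real.exp (-2 * (s - t)))) with hR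
    have hpos : ∀ s : ℝ, 1 ≤ s → ∀ t ∈ J, 0 < s - t := fun s hs t ht => by linarith [ht.2]
    have hden : ∀ s : ℝ, 1 ≤ s → ∀ t ∈ J, 1 / 2 ≤ 1 - Real.exp (-2 * (s - t)) := by
      intro s hs t ht
      have h3 : Real.exp (-2 * (s - t)) ≤ Real.exp (-1) := Real.exp_le_exp.2 (by linarith [ht.2])
      have h4 : Real.exp (-1) ≤ 1 / 2 := by
        rw [Real.exp_neg, one_div]
        apply inv_anti₀ (by norm_num)
        have := Real.exp_one_gt_d9
        linarith
      linarith
    have hcont : ∀ s : ℝ, 1 ≤ s → ContinuousOn (fun t => Real.exp ((2 * k + 1) * t) /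
        (1 - Real.exp (-2 * (s - t)))) J := by
      intro s hs
      apply ContinuousOn.div (by fun_prop) (by fun_prop)
      intro t ht
      have := hden s hs t ht
      linarith
    have hzero : ∃ᶠ s in (atTop : Filter ℝ), R s = 0 := by
      refine (h.and_eventually (eventually_ge_atTop 1)).mono ?_
      rintro s ⟨hs0, hs1⟩
      have e1 : ∫ t in J, f t * (1 / Real.sinh (s - t)) =
          ∫ t in J, (∑ j ∈ Finset.range k, (2 * Real.exp (-((2 * j + 1) * s))) *
            (f t * Real.exp ((2 * j + 1) * t)) + (2 * Real.exp (-((2 * k + 1) * s))) *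
            (f t * (Real.exp ((2 * k + 1) * t) / (1 - Real.exp (-2 * (s - t)))))) := by
        apply setIntegral_congr_fun measurableSet_Icc
        intro t ht
        simp only
        rw [inv_sinh (s - t) (hpos s hs1 t ht) k]
        have e2 : ∀ j : ℕ, Real.exp (-((2 * (j : ℝ) + 1) * (s - t))) =
            Real.exp (-((2 * j + 1) * s)) * Real.exp ((2 * j + 1) * t) := by
          intro j
          rw [← Real.exp_add]; congr 1; ring
        simp only [e2]
        rw [mul_add, mul_add, Finset.mul_sum, Finset.mul_sum]
        congr 1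
        · apply Finset.sum_congr rfl
          intro j _
          ring
        · ring
      rw [e1, integral_add, integral_finsetSum, integral_const_mul] at hs0
      · have e3 : ∑ j ∈ Finset.range k, ∫ t in J, (2 * Real.exp (-((2 * (j : ℝ) + 1) * s))) *
            (f t * Real.exp ((2 * j + 1) * t)) = 0 := by
          apply Finset.sum_eq_zero
          intro j hj
          rw [integral_const_mul]
          have := ih j (Finset.mem_range.1 hj)
          unfold Mo at this
          rw [this, mul_zero]
        rw [e3, zero_add] at hs0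
        rcases mul_eq_zero.1 hs0 with h' | h'
        · have : 0 < 2 * Real.exp (-((2 * (k : ℝ) + 1) * s)) := by positivity
          exact absurd h' this.ne'
        · exact h'
      · intro j _
        exact (int_bdd hf (by fun_prop)).const_mul _
      · apply integrable_finsetSum
        intro j _
        exact (int_bdd hf (by fun_prop)).const_mul _
      · exact (int_bdd hf (hcont s hs1)).const_mul _
    have hlim : Tendsto R atTop (𝓝 (Mo f k)) := by
      unfold Mo
      apply tendsto_integral_filter_of_dominated_convergence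
        (fun _ => M * (Real.exp (2 * k + 1) * 2))
      · filter_upwards [eventually_ge_atTop 1] with s hs
        exact (int_bdd hf (hcont s hs)).1
      · filter_upwards [eventually_ge_atTop 1] with s hs
        filter_upwards [ae_restrict_mem measurableSet_Icc] with t ht
        have h1 := hden s hs t ht
        have h2 : Real.exp ((2 * k + 1) * t) ≤ Real.exp (2 * k + 1) := by
          apply Real.exp_le_exp.2
          have h3 : (0 : ℝ) ≤ 2 * k + 1 := by positivity
          have h4 := ht.2
          nlinarith
        rw [norm_mul, norm_div, Real.norm_of_nonneg (Real.exp_pos _).le, Real.norm_eq_abs,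
          Real.norm_of_nonneg (by linarith : 0 ≤ 1 - Real.exp (-2 * (s - t)))]
        have h5 := hf.bd t
        have hM := hf.nonneg
        have h6 : Real.exp ((2 * k + 1) * t) / (1 - Real.exp (-2 * (s - t))) ≤
            Real.exp (2 * k + 1) * 2 := by
          rw [div_le_iff₀ (by linarith)]
          have := Real.exp_pos (2 * (k : ℝ) + 1)
          nlinarith
        gcongr
      · exact integrable_const _
      · refine Eventually.of_forall fun t => ?_
        have h1 : Tendsto (fun s : ℝ => Real.exp (-2 * (s - t))) atTop (𝓝 0) := by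
          apply Real.tendsto_exp_atBot.comp
          have : Tendsto (fun s : ℝ => s - t) atTop atTop := tendsto_atTop_add_const_right _ _ tendsto_id
          exact this.const_mul_atTop_of_neg (by norm_num)
        have h2 : Tendsto (fun s : ℝ => 1 - Real.exp (-2 * (s - t))) atTop (𝓝 (1 - 0)) :=
          tendsto_const_nhds.sub h1
        have h3 := (tendsto_const_nhds (x := Real.exp ((2 * (k : ℝ) + 1) * t)) (f := atTop)).div h2
          (by norm_num)
        have h4 := h3.const_mul (f t)
        simpa using h4
    have hcl : IsClosed ({0} : Set ℝ) := isClosed_singleton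
    have := hcl.mem_of_frequently_of_tendsto (f := R) hzero hlim
    exact this

theorem strict {ψ : ℝ → ℝ} (hψ : Prof ψ) (p : Polynomial ℝ) (hp : p ≠ 0) :
    0 < ∫ s in Ioi (1 : ℝ), D (Fp (fp p)) ψ s := by
  obtain ⟨M, hf⟩ := fp_dens p
  obtain ⟨-, hD, -⟩ := pot_energy hf hψ
  have h0 : 0 ≤ ∫ s in Ioi (1 : ℝ), D (Fp (fp p)) ψ s :=
    setIntegral_nonneg measurableSet_Ioi fun s _ => D_nonneg hψ s
  rcases h0.lt_or_eq with h | h
  · exact h
  exfalso
  have hpi := Real.pi_pos
  -- the energy vanishes on almost all fibres
  have h1 : ∀ᵐ s ∂(volume.restrict (Ioi (1 : ℝ))), D (Fp (fp p)) ψ s = 0 := by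
    have := (setIntegral_eq_zero_iff_of_nonneg_ae (s := Ioi (1 : ℝ))
      (Eventually.of_forall fun s => D_nonneg hψ s) hD).1 h.symm
    exact this
  have h2 : ∀ s : ℝ, 2 ≤ s → D (Fp (fp p)) ψ s = 0 →
      ∫ t in J, fp p t * (1 / Real.sinh (s - t)) = 0 := by
    intro s hs hDs
    have hz : deriv (Fp (fp p)) (w s (Real.pi / 2)) = 0 := by
      by_contra hne
      unfold D at hDs
      rw [hψ.far s (by rw [abs_of_nonneg (by linarith)]; exact hs)] at hDs
      have hd1 : DifferentiableOn ℂ (deriv (Fp (fp p))) (HP (1 / 2)) :=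
        (Fp_diffOn hf).deriv (HP_open _)
      have hcont : Continuous (fun φ : ℝ => ‖deriv (Fp (fp p)) (w s φ)‖ ^ 2) := by
        have h3 : Continuous (fun φ : ℝ => w s φ) := w_cont.comp (continuous_const.prodMk continuous_id)
        have h4 : Continuous (fun φ : ℝ => deriv (Fp (fp p)) (w s φ)) :=
          hd1.continuousOn.comp_continuous h3 (fun φ => by
            show 1 / 2 < (w s φ).re
            rw [w_re]; linarith)
        exact h4.norm.pow 2
      have := intervalIntegral.integral_pos (a := Real.pi / 4) (b := Real.pi / 2) (by linarith)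
        hcont.continuousOn (fun φ _ => by positivity)
        ⟨Real.pi / 2, ⟨by linarith, le_rfl⟩, by positivity⟩
      linarith
    rw [Fp_der hf (by rw [w_re]; linarith), Fp1_mid hf (by linarith)] at hz
    have h5 : ∫ t in J, fp p t * (1 / (2 * Real.pi) / Real.sinh (s - t)) = 0 := by
      rcases mul_eq_zero.1 hz with h | h
      · exact absurd h Complex.I_ne_zero
      · exact_mod_cast h
    have e1 : ∀ t, fp p t * (1 / (2 * Real.pi) / Real.sinh (s - t)) =
        (1 / (2 * Real.pi)) * (fp p t * (1 / Real.sinh (s - t))) := by intro t; ring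
    simp only [e1] at h5
    rw [integral_const_mul] at h5
    rcases mul_eq_zero.1 h5 with h | h
    · have : (0 : ℝ) < 1 / (2 * Real.pi) := by positivity
      exact absurd h this.ne'
    · exact h
  have h3 : ∃ᶠ s in (atTop : Filter ℝ), ∫ t in J, fp p t * (1 / Real.sinh (s - t)) = 0 := by
    rw [frequently_atTop]
    intro N
    by_contra hcon
    push Not at hcon
    -- the set `Ioi (max N 2)` would be null
    have h4 : ∀ᵐ s ∂(volume.restrict (Ioi (max N 2))), False := by
      have h5 : ∀ᵐ s ∂(volume.restrict (Ioi (max N 2))), D (Fp (fp p)) ψ s = 0 :=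
        ae_restrict_of_ae_restrict_of_subset (Ioi_subset_Ioi (by
          have := le_max_right N 2
          linarith)) h1
      filter_upwards [h5, ae_restrict_mem measurableSet_Ioi] with s hs1 hs2
      have hs3 : max N 2 < s := hs2
      have hs4 : N ≤ s := (le_max_left N 2).trans hs3.le
      have hs5 : 2 ≤ s := (le_max_right N 2).trans hs3.le
      exact hcon s hs4 (h2 s hs5 hs1)
    rw [eventually_false_iff_eq_bot, ae_eq_bot, Measure.restrict_eq_zero, Real.volume_Ioi] at h4
    exact absurd h4 (by simp)
  have h6 := moments hf h3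
  -- the square integral of the density is a combination of moments
  have hc : Continuous (fun t : ℝ => (Real.exp t * p.eval (Real.exp (2 * t))) ^ 2) := by
    have := p.continuous
    fun_prop
  have h7 : ∫ t in J, (Real.exp t * p.eval (Real.exp (2 * t))) ^ 2 = 0 := by
    have e1 : ∫ t in J, (Real.exp t * p.eval (Real.exp (2 * t))) ^ 2 =
        ∫ t in J, ∑ k ∈ Finset.range (p.natDegree + 1),
          p.coeff k * (fp p t * Real.exp ((2 * k + 1) * t)) := by
      apply setIntegral_congr_fun measurableSet_Icc
      intro t ht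
      have hft : fp p t = Real.exp t * p.eval (Real.exp (2 * t)) := by
        unfold fp
        rw [if_pos ((mem_J_iff t).1 ht)]
      simp only
      have e2 : ∀ k : ℕ, Real.exp ((2 * (k : ℝ) + 1) * t) = Real.exp t * Real.exp (2 * t) ^ k := by
        intro k
        rw [← Real.exp_nat_mul, ← Real.exp_add]; congr 1; ring
      simp only [e2]
      calc (Real.exp t * p.eval (Real.exp (2 * t))) ^ 2
          = fp p t * Real.exp t * p.eval (Real.exp (2 * t)) := by rw [hft]; ring
        _ = fp p t * Real.exp t * ∑ k ∈ Finset.range (p.natDegree + 1),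
              p.coeff k * Real.exp (2 * t) ^ k := by
            congr 1
            exact Polynomial.eval_eq_sum_range _
        _ = _ := by
            rw [Finset.mul_sum]
            apply Finset.sum_congr rfl
            intro k _
            ring
    rw [e1, integral_finsetSum]
    · apply Finset.sum_eq_zero
      intro k _
      rw [integral_const_mul]
      have := h6 k
      unfold Mo at this
      rw [this, mul_zero]
    · intro k _
      exact (int_bdd hf (by fun_prop)).const_mul _
  have h8 : ∀ t ∈ J, p.eval (Real.exp (2 * t)) = 0 := by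
    intro t ht
    by_contra hne
    have h9 : ∫ t in (-(1 / 2) : ℝ)..(1 / 2), (Real.exp t * p.eval (Real.exp (2 * t))) ^ 2 = 0 := by
      rw [intervalIntegral.integral_of_le (by norm_num), ← integral_Icc_eq_integral_Ioc]
      exact h7
    have := intervalIntegral.integral_pos (a := (-(1 / 2) : ℝ)) (b := 1 / 2) (by norm_num)
      hc.continuousOn (fun φ _ => by positivity) ⟨t, ht, by positivity⟩
    linarith
  apply hp
  apply Polynomial.eq_zero_of_infinite_isRoot
  have hinf : (Icc (-(1 / 2) : ℝ) (1 / 2)).Infinite := Set.Icc_infinite (by norm_num)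
  have hinj : InjOn (fun t : ℝ => Real.exp (2 * t)) (Icc (-(1 / 2) : ℝ) (1 / 2)) := by
    intro a _ b _ hab
    have := Real.exp_injective hab
    linarith
  refine (hinf.image hinj).mono ?_
  rintro x ⟨t, ht, rfl⟩
  exact h8 t ht

end Pool.Agent.TH304.POS

namespace Pool.Agent.TH268.NP

open Pool.Agent.TH304.POS

/-- NP-POS: the double layer form is positive on densities carried by the middle part -/
theorem nppos (ψ : ℝ → ℝ) (hψ : Prof ψ) (p : Polynomial ℝ) (hp : p ≠ 0) :
    0 < ∫ s, (∫ t, kk ψ t s * fp p t) * ∫ r, GS ψ s r * fp p r := by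
  obtain ⟨M, hf⟩ := fp_dens p
  exact lt_of_lt_of_le (strict hψ p hp) (form_ge hψ hf)

end Pool.Agent.TH268.NP
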