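import Mathlib

set_option autoImplicit false

open MeasureTheory Set Filter Topology
open scoped ENNReal NNReal

namespace Pool.Agent.TH304.POS

/-- continuity of a parametric primitive, local in the parameter -/
lemma cont_prim {P : ℝ → ℝ → ℝ} {c : ℝ} (hP : ContinuousOn (Function.uncurry P) (Ioi c ×ˢ univ))
    (b : ℝ) {s0 : ℝ} (hs0 : c < s0) (a0 : ℝ) :
    ContinuousAt (fun p : ℝ × ℝ => ∫ φ in p.2..b, P p.1 φ) (s0, a0) := by
  obtain ⟨c', hc1, hc2⟩ := exists_between hs0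
  have h1 : Continuous (Function.uncurry (fun s φ => P (max s c') φ)) := by
    have e1 : Function.uncurry (fun s φ => P (max s c') φ) =
        Function.uncurry P ∘ (fun p : ℝ × ℝ => (max p.1 c', p.2)) := by
      funext p; rfl
    rw [e1]
    apply hP.comp_continuous
    · fun_prop
    · intro p
      refine ⟨?_, mem_univ _⟩
      exact lt_of_lt_of_le hc1 (le_max_right _ _)
  have h2 := intervalIntegral.continuous_parametric_primitive_of_continuous (μ := volume)
    (a₀ := b) h1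
  have h3 : ContinuousAt (fun p : ℝ × ℝ => -∫ φ in b..p.2, P (max p.1 c') φ) (s0, a0) :=
    h2.continuousAt.neg
  refine h3.congr ?_
  have hev : ∀ᶠ p : ℝ × ℝ in 𝓝 (s0, a0), c' < p.1 := by
    have : Tendsto (fun p : ℝ × ℝ => p.1) (𝓝 (s0, a0)) (𝓝 s0) := continuousAt_fst
    exact this.eventually (lt_mem_nhds hc2)
  filter_upwards [hev] with p hp
  rw [max_eq_left hp.le, intervalIntegral.integral_symm]
  ring

/-- differentiation under the integral sign with fixed limits -/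
lemma deriv_fixed {P Ps : ℝ → ℝ → ℝ} {c : ℝ}
    (hP : ContinuousOn (Function.uncurry P) (Ioi c ×ˢ univ))
    (hPs : ContinuousOn (Function.uncurry Ps) (Ioi c ×ˢ univ))
    (hd : ∀ s, c < s → ∀ φ, HasDerivAt (fun s => P s φ) (Ps s φ) s) (a b : ℝ) {s0 : ℝ}
    (hs0 : c < s0) : HasDerivAt (fun s => ∫ φ in a..b, P s φ) (∫ φ in a..b, Ps s0 φ) s0 := by
  obtain ⟨c', hc1, hc2⟩ := exists_between hs0
  have hrow : ∀ (Q : ℝ → ℝ → ℝ), ContinuousOn (Function.uncurry Q) (Ioi c ×ˢ univ) → ∀ s, c < s →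
      Continuous (Q s) := by
    intro Q hQ s hs
    have e1 : Q s = Function.uncurry Q ∘ (fun φ : ℝ => (s, φ)) := by funext φ; rfl
    rw [e1]
    exact hQ.comp_continuous (by fun_prop) (fun φ => ⟨hs, mem_univ _⟩)
  have hK : IsCompact (Icc c' (s0 + 1) ×ˢ uIcc a b) := isCompact_Icc.prod isCompact_uIcc
  have hsub : Icc c' (s0 + 1) ×ˢ uIcc a b ⊆ Ioi c ×ˢ univ := by
    rintro ⟨x, y⟩ ⟨h1, -⟩
    exact ⟨lt_of_lt_of_le hc1 h1.1, mem_univ _⟩
  obtain ⟨C, hC⟩ := hK.exists_bound_of_continuousOn (hPs.mono hsub)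
  have := intervalIntegral.hasDerivAt_integral_of_dominated_loc_of_deriv_le (μ := volume)
    (F := P) (F' := Ps) (x₀ := s0) (s := Ioo c' (s0 + 1)) (a := a) (b := b) (bound := fun _ => C)
    (Ioo_mem_nhds hc2 (by linarith))
    (by
      filter_upwards [lt_mem_nhds hs0] with s hs
      exact (hrow P hP s hs).aestronglyMeasurable)
    ((hrow P hP s0 hs0).intervalIntegrable _ _)
    (hrow Ps hPs s0 hs0).aestronglyMeasurable
    (Eventually.of_forall fun φ hφ s hs => hC (s, φ) ⟨Ioo_subset_Icc_self hs, uIoc_subset_uIcc hφ⟩)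
    intervalIntegrable_const
    (Eventually.of_forall fun φ _ s hs => hd s (hc1.trans hs.1) φ)
  exact this.2

/-- the Leibniz rule with one moving limit -/
lemma leibniz {P Ps : ℝ → ℝ → ℝ} {c : ℝ}
    (hP : ContinuousOn (Function.uncurry P) (Ioi c ×ˢ univ))
    (hPs : ContinuousOn (Function.uncurry Ps) (Ioi c ×ˢ univ))
    (hd : ∀ s, c < s → ∀ φ, HasDerivAt (fun s => P s φ) (Ps s φ) s) (b : ℝ) {s0 : ℝ}
    (hs0 : c < s0) {ψ : ℝ → ℝ} {ψ' : ℝ} (hψ : HasDerivAt ψ ψ' s0) :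
    HasDerivAt (fun s => ∫ φ in (ψ s)..b, P s φ)
      (-ψ' * P s0 (ψ s0) + ∫ φ in (ψ s0)..b, Ps s0 φ) s0 := by
  set f : ℝ → ℝ → ℝ := fun s a => ∫ φ in a..b, P s φ with hf
  set f1 : ℝ → ℝ → ℝ →L[ℝ] ℝ := fun s a => (∫ φ in a..b, Ps s φ) • (1 : ℝ →L[ℝ] ℝ) with hf1
  set f2 : ℝ → ℝ → ℝ →L[ℝ] ℝ := fun s a => (-P s a) • (1 : ℝ →L[ℝ] ℝ) with hf2
  have hev : ∀ᶠ p : ℝ × ℝ in 𝓝 (s0, ψ s0), c < p.1 := by
    have : Tendsto (fun p : ℝ × ℝ => p.1) (𝓝 (s0, ψ s0)) (𝓝 s0) := continuousAt_fst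
    exact this.eventually (lt_mem_nhds hs0)
  have hnhds : (Ioi c ×ˢ univ : Set (ℝ × ℝ)) ∈ 𝓝 (s0, ψ s0) := by
    filter_upwards [hev] with p hp
    exact ⟨hp, mem_univ _⟩
  have hrow : ∀ s, c < s → Continuous (P s) := by
    intro s hs
    have e1 : P s = Function.uncurry P ∘ (fun φ : ℝ => (s, φ)) := by funext φ; rfl
    rw [e1]
    exact hP.comp_continuous (by fun_prop) (fun φ => ⟨hs, mem_univ _⟩)
  have key := hasStrictFDerivAt_uncurry_coprod (𝕜 := ℝ) (u := (s0, ψ s0)) (f := f) (f₁ := f1)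
    (f₂ := f2) (by
      filter_upwards [hev] with p hp
      have := (deriv_fixed hP hPs hd p.2 b hp).hasFDerivAt
      refine this.congr_fderiv ?_
      ext
      simp [hf1, Function.HasUncurry.uncurry])
    (by
      filter_upwards [hev] with p hp
      have h1 := intervalIntegral.integral_hasDerivAt_left
        ((hrow p.1 hp).intervalIntegrable p.2 b)
        ((hrow p.1 hp).stronglyMeasurableAtFilter _ _) (hrow p.1 hp).continuousAt
      refine h1.hasFDerivAt.congr_fderiv ?_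
      ext
      simp [hf2, Function.HasUncurry.uncurry])
    (by
      have h1 := cont_prim hPs b hs0 (ψ s0)
      exact h1.smul continuousAt_const)
    (by
      have h1 : ContinuousAt (Function.uncurry P) (s0, ψ s0) := hP.continuousAt hnhds
      exact h1.neg.smul continuousAt_const)
  have hcurve : HasDerivAt (fun s : ℝ => (s, ψ s)) (1, ψ') s0 := (hasDerivAt_id s0).prodMk hψ
  have h2 := key.hasFDerivAt.comp_hasDerivAt s0 hcurve
  have e1 : (Function.HasUncurry.uncurry f ∘ fun s : ℝ => (s, ψ s)) =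
      fun s => ∫ φ in (ψ s)..b, P s φ := by
    funext s; rfl
  rw [e1] at h2
  refine h2.congr_deriv ?_
  simp [hf1, hf2, Function.HasUncurry.uncurry]
  ring

end Pool.Agent.TH304.POS
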