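import Pool.Agent.TH268.NP.Bd
import Pool.Agent.TH304.POS.Leibniz

set_option autoImplicit false

open MeasureTheory Set Filter Topology
open scoped ENNReal NNReal

namespace Pool.Agent.TH304.POS

open Pool.Agent.TH268.NP

/-- the point `s + i φ` -/
noncomputable def w (s φ : ℝ) : ℂ := (s : ℂ) + (φ : ℂ) * Complex.I

@[simp] lemma w_re (s φ : ℝ) : (w s φ).re = s := by simp [w]
@[simp] lemma w_im (s φ : ℝ) : (w s φ).im = φ := by simp [w]

lemma w_cont : Continuous (fun p : ℝ × ℝ => w p.1 p.2) := by unfold w; fun_prop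

lemma w_ds (s φ : ℝ) : HasDerivAt (fun s => w s φ) 1 s := by
  unfold w
  exact (Complex.ofRealCLM.hasDerivAt (x := s)).add_const _ |>.congr_deriv (by simp)

lemma w_dφ (s φ : ℝ) : HasDerivAt (fun φ => w s φ) Complex.I φ := by
  unfold w
  have h := ((Complex.ofRealCLM.hasDerivAt (x := φ)).mul_const Complex.I).const_add (s : ℂ)
  exact h.congr_deriv (by simp)

lemma curve {F : ℂ → ℂ} {F1 : ℂ} {γ : ℝ → ℂ} {γ' : ℂ} {s : ℝ} (hF : HasDerivAt F F1 (γ s))
    (hγ : HasDerivAt γ γ' s) : HasDerivAt (fun s => F (γ s)) (γ' * F1) s :=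
  hF.scomp s hγ

lemma im_deriv {g : ℝ → ℂ} {g' : ℂ} {s : ℝ} (h : HasDerivAt g g' s) :
    HasDerivAt (fun s => (g s).im) g'.im s :=
  Complex.imCLM.hasFDerivAt.comp_hasDerivAt s h

lemma re_deriv {g : ℝ → ℂ} {g' : ℂ} {s : ℝ} (h : HasDerivAt g g' s) :
    HasDerivAt (fun s => (g s).re) g'.re s :=
  Complex.reCLM.hasFDerivAt.comp_hasDerivAt s h

/-- the half plane -/
def HP (c : ℝ) : Set ℂ := {z | c < z.re}

lemma HP_open (c : ℝ) : IsOpen (HP c) := isOpen_lt continuous_const Complex.continuous_re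

/-- the density form along the curve -/
noncomputable def T (F : ℂ → ℂ) (ψ : ℝ → ℝ) (s : ℝ) : ℝ :=
  ((deriv F (w s (ψ s))).re - deriv ψ s * (deriv F (w s (ψ s))).im) * -(F (w s (ψ s))).im

/-- the energy in the fibre -/
noncomputable def D (F : ℂ → ℂ) (ψ : ℝ → ℝ) (s : ℝ) : ℝ :=
  ∫ φ in (ψ s)..(Real.pi / 2), ‖deriv F (w s φ)‖ ^ 2

theorem energy {F : ℂ → ℂ} {c : ℝ} (hc : c < 1) (hF : DifferentiableOn ℂ F (HP c)) {ψ : ℝ → ℝ}
    (hψ : Prof ψ) {K : ℝ} (hb0 : ∀ s φ : ℝ, 1 ≤ s → ‖F (w s φ)‖ ≤ K * Real.exp (-s))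
    (hb1 : ∀ s φ : ℝ, 1 ≤ s → ‖deriv F (w s φ)‖ ≤ K * Real.exp (-s))
    (hre : ∀ s : ℝ, 1 ≤ s → (deriv F (w s (Real.pi / 2))).re = 0) :
    IntegrableOn (T F ψ) (Ioi 1) ∧ IntegrableOn (D F ψ) (Ioi 1) ∧
      ∫ s in Ioi (1 : ℝ), T F ψ s = ∫ s in Ioi (1 : ℝ), D F ψ s := by
  have hpi := Real.pi_pos
  have hK : 0 ≤ K := by
    have h1 := (norm_nonneg _).trans (hb0 1 0 le_rfl)
    exact nonneg_of_mul_nonneg_left h1 (Real.exp_pos _)
  obtain ⟨M, hM0, hM⟩ := hψ.deriv_bdd
  set F1 := deriv F with hF1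
  set F2 := deriv F1 with hF2
  have hd1 : DifferentiableOn ℂ F1 (HP c) := hF.deriv (HP_open c)
  have hd2 : DifferentiableOn ℂ F2 (HP c) := hd1.deriv (HP_open c)
  have hda0 : ∀ z ∈ HP c, HasDerivAt F (F1 z) z := fun z hz =>
    (hF.differentiableAt ((HP_open c).mem_nhds hz)).hasDerivAt
  have hda1 : ∀ z ∈ HP c, HasDerivAt F1 (F2 z) z := fun z hz =>
    (hd1.differentiableAt ((HP_open c).mem_nhds hz)).hasDerivAt
  have hwm : ∀ s φ : ℝ, c < s → w s φ ∈ HP c := fun s φ hs => by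
    show c < (w s φ).re
    rwa [w_re]
  have hcomp : ∀ (Q : ℂ → ℂ), DifferentiableOn ℂ Q (HP c) →
      ContinuousOn (fun p : ℝ × ℝ => Q (w p.1 p.2)) (Ioi c ×ˢ univ) := by
    intro Q hQ
    exact hQ.continuousOn.comp w_cont.continuousOn (fun p hp => hwm p.1 p.2 hp.1)
  have hc0 := hcomp F hF
  have hc1 := hcomp F1 hd1
  have hc2 := hcomp F2 hd2
  set U : ℝ → ℝ → ℝ := fun s φ => -(F (w s φ)).im with hU
  set Us : ℝ → ℝ → ℝ := fun s φ => -(F1 (w s φ)).im with hUs
  set Up : ℝ → ℝ → ℝ := fun s φ => -(F1 (w s φ)).re with hUp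
  set Uss : ℝ → ℝ → ℝ := fun s φ => -(F2 (w s φ)).im with hUss
  have cU : ContinuousOn (fun p : ℝ × ℝ => U p.1 p.2) (Ioi c ×ˢ univ) :=
    (Complex.continuous_im.comp_continuousOn hc0).neg
  have cUs : ContinuousOn (fun p : ℝ × ℝ => Us p.1 p.2) (Ioi c ×ˢ univ) :=
    (Complex.continuous_im.comp_continuousOn hc1).neg
  have cUp : ContinuousOn (fun p : ℝ × ℝ => Up p.1 p.2) (Ioi c ×ˢ univ) :=
    (Complex.continuous_re.comp_continuousOn hc1).neg
  have cUss : ContinuousOn (fun p : ℝ × ℝ => Uss p.1 p.2) (Ioi c ×ˢ univ) :=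
    (Complex.continuous_im.comp_continuousOn hc2).neg
  have dU : ∀ s, c < s → ∀ φ, HasDerivAt (fun s => U s φ) (Us s φ) s := by
    intro s hs φ
    have := (im_deriv (curve (γ := fun s => w s φ) (s := s) (hda0 _ (hwm s φ hs)) (w_ds s φ))).neg
    exact this.congr_deriv (by simp [hUs])
  have dUs : ∀ s, c < s → ∀ φ, HasDerivAt (fun s => Us s φ) (Uss s φ) s := by
    intro s hs φ
    have := (im_deriv (curve (γ := fun s => w s φ) (s := s) (hda1 _ (hwm s φ hs)) (w_ds s φ))).neg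
    exact this.congr_deriv (by simp [hUss])
  have dUφ : ∀ s, c < s → ∀ φ, HasDerivAt (fun φ => U s φ) (Up s φ) φ := by
    intro s hs φ
    have := (im_deriv (curve (γ := fun φ => w s φ) (s := φ) (hda0 _ (hwm s φ hs)) (w_dφ s φ))).neg
    exact this.congr_deriv (by simp [hUp])
  have dUpφ : ∀ s, c < s → ∀ φ, HasDerivAt (fun φ => Up s φ) (-Uss s φ) φ := by
    intro s hs φ
    have := (re_deriv (curve (γ := fun φ => w s φ) (s := φ) (hda1 _ (hwm s φ hs)) (w_dφ s φ))).neg
    exact this.congr_deriv (by simp [hUss])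
  set P : ℝ → ℝ → ℝ := fun s φ => U s φ * Us s φ with hP
  set Ps : ℝ → ℝ → ℝ := fun s φ => Us s φ * Us s φ + U s φ * Uss s φ with hPs
  have cP : ContinuousOn (Function.uncurry P) (Ioi c ×ˢ univ) := cU.mul cUs
  have cPs : ContinuousOn (Function.uncurry Ps) (Ioi c ×ˢ univ) := (cUs.mul cUs).add (cU.mul cUss)
  have dP : ∀ s, c < s → ∀ φ, HasDerivAt (fun s => P s φ) (Ps s φ) s := fun s hs φ =>
    (dU s hs φ).mul (dUs s hs φ)
  have hrow : ∀ (Q : ℝ → ℝ → ℝ), ContinuousOn (fun p : ℝ × ℝ => Q p.1 p.2) (Ioi c ×ˢ univ) →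
      ∀ s, c < s → Continuous (Q s) := by
    intro Q hQ s hs
    have e1 : Q s = (fun p : ℝ × ℝ => Q p.1 p.2) ∘ (fun φ : ℝ => (s, φ)) := by funext φ; rfl
    rw [e1]
    exact hQ.comp_continuous (by fun_prop) (fun φ => ⟨hs, mem_univ _⟩)
  set Y : ℝ → ℝ := fun s => ∫ φ in (ψ s)..(Real.pi / 2), P s φ with hY
  have hnorm : ∀ s φ, ‖F1 (w s φ)‖ ^ 2 = Us s φ * Us s φ + Up s φ * Up s φ := by
    intro s φ
    rw [← Complex.normSq_eq_norm_sq, Complex.normSq_apply]
    simp only [hUs, hUp]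
    ring
  have hDs : ∀ s, D F ψ s = ∫ φ in (ψ s)..(Real.pi / 2), (Us s φ * Us s φ + Up s φ * Up s φ) := by
    intro s
    unfold D
    congr 1
    funext φ
    exact hnorm s φ
  have dY : ∀ s, 1 ≤ s → HasDerivAt Y (D F ψ s - T F ψ s) s := by
    intro s hs1
    have hs : c < s := lt_of_lt_of_le hc hs1
    have h1 := leibniz cP cPs dP (Real.pi / 2) hs (hψ.diff s).hasDerivAt
    refine h1.congr_deriv ?_
    -- integration by parts in `φ`
    have h2 : ∫ φ in (ψ s)..(Real.pi / 2), (Up s φ * Up s φ + U s φ * -Uss s φ) =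
        U s (Real.pi / 2) * Up s (Real.pi / 2) - U s (ψ s) * Up s (ψ s) := by
      refine intervalIntegral.integral_eq_sub_of_hasDerivAt
        (f := fun φ => U s φ * Up s φ) (fun φ _ => ?_) ?_
      · exact (dUφ s hs φ).mul (dUpφ s hs φ)
      · apply Continuous.intervalIntegrable
        exact ((hrow Up cUp s hs).mul (hrow Up cUp s hs)).add
          ((hrow U cU s hs).mul (hrow Uss cUss s hs).neg)
    have h3 : Up s (Real.pi / 2) = 0 := by
      simp only [hUp]
      rw [hre s hs1, neg_zero]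
    rw [h3, mul_zero, zero_sub] at h2
    have i1 : IntervalIntegrable (fun φ => Us s φ * Us s φ) volume (ψ s) (Real.pi / 2) :=
      ((hrow Us cUs s hs).mul (hrow Us cUs s hs)).intervalIntegrable _ _
    have i2 : IntervalIntegrable (fun φ => Up s φ * Up s φ) volume (ψ s) (Real.pi / 2) :=
      ((hrow Up cUp s hs).mul (hrow Up cUp s hs)).intervalIntegrable _ _
    have i3 : IntervalIntegrable (fun φ => U s φ * Uss s φ) volume (ψ s) (Real.pi / 2) :=
      ((hrow U cU s hs).mul (hrow Uss cUss s hs)).intervalIntegrable _ _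
    have i4 : IntervalIntegrable (fun φ => U s φ * -Uss s φ) volume (ψ s) (Real.pi / 2) :=
      ((hrow U cU s hs).mul (hrow Uss cUss s hs).neg).intervalIntegrable _ _
    rw [intervalIntegral.integral_add i2 i4] at h2
    have h4 : ∫ φ in (ψ s)..(Real.pi / 2), U s φ * -Uss s φ =
        -∫ φ in (ψ s)..(Real.pi / 2), U s φ * Uss s φ := by
      rw [← intervalIntegral.integral_neg]
      congr 1
      funext φ
      ring
    rw [h4] at h2
    rw [hDs s, intervalIntegral.integral_add i1 i2]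
    have h5 : ∫ φ in (ψ s)..(Real.pi / 2), Ps s φ =
        (∫ φ in (ψ s)..(Real.pi / 2), Us s φ * Us s φ) +
          ∫ φ in (ψ s)..(Real.pi / 2), U s φ * Uss s φ := by
      rw [← intervalIntegral.integral_add i1 i3]
    rw [h5]
    have h6 : T F ψ s = (-Up s (ψ s) + deriv ψ s * Us s (ψ s)) * U s (ψ s) := by
      unfold T
      simp only [hUp, hUs, hU]
      ring
    rw [h6]
    simp only [hP]
    linarith
  -- bounds
  have hψw : ∀ s, |Real.pi / 2 - ψ s| ≤ 2 := by
    intro s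
    have h1 := hψ.lo s
    have h2 := hψ.hi s
    have h3 := Real.pi_lt_four
    rw [abs_le]; constructor <;> linarith
  have hexp2 : ∀ s : ℝ, Real.exp (-s) * Real.exp (-s) = Real.exp (-2 * s) := by
    intro s; rw [← Real.exp_add]; congr 1; ring
  have hTb : ∀ s, 1 ≤ s → ‖T F ψ s‖ ≤ (1 + M) * K ^ 2 * Real.exp (-2 * s) := by
    intro s hs
    unfold T
    have h1 := hb1 s (ψ s) hs
    have h2 := hb0 s (ψ s) hs
    have h3 := Complex.abs_re_le_norm (F1 (w s (ψ s)))
    have h4 := Complex.abs_im_le_norm (F1 (w s (ψ s)))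
    have h5 := Complex.abs_im_le_norm (F (w s (ψ s)))
    have h6 := hM s
    rw [norm_mul, Real.norm_eq_abs, Real.norm_eq_abs, abs_neg]
    calc |(F1 (w s (ψ s))).re - deriv ψ s * (F1 (w s (ψ s))).im| * |(F (w s (ψ s))).im|
        ≤ (|(F1 (w s (ψ s))).re| + |deriv ψ s| * |(F1 (w s (ψ s))).im|) * |(F (w s (ψ s))).im| := by
          gcongr
          rw [← abs_mul]
          exact abs_sub _ _
      _ ≤ (K * Real.exp (-s) + M * (K * Real.exp (-s))) * (K * Real.exp (-s)) := by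
          gcongr
          · exact h3.trans h1
          · exact h4.trans h1
          · exact h5.trans h2
      _ = (1 + M) * K ^ 2 * (Real.exp (-s) * Real.exp (-s)) := by ring
      _ = _ := by rw [hexp2]
  have hDb : ∀ s, 1 ≤ s → ‖D F ψ s‖ ≤ 2 * K ^ 2 * Real.exp (-2 * s) := by
    intro s hs
    unfold D
    have h1 := intervalIntegral.norm_integral_le_of_norm_le_const (a := ψ s) (b := Real.pi / 2)
      (f := fun φ => ‖deriv F (w s φ)‖ ^ 2) (C := K ^ 2 * Real.exp (-2 * s)) (fun φ _ => by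
        rw [norm_pow, norm_norm, ← hexp2]
        have := hb1 s φ hs
        calc ‖deriv F (w s φ)‖ ^ 2 ≤ (K * Real.exp (-s)) ^ 2 := by
              gcongr
          _ = _ := by ring)
    refine h1.trans ?_
    have h2 := hψw s
    calc K ^ 2 * Real.exp (-2 * s) * |Real.pi / 2 - ψ s| ≤ K ^ 2 * Real.exp (-2 * s) * 2 := by gcongr
      _ = _ := by ring
  have hYb : ∀ s, 1 ≤ s → ‖Y s‖ ≤ 2 * K ^ 2 * Real.exp (-2 * s) := by
    intro s hs
    have h1 := intervalIntegral.norm_integral_le_of_norm_le_const (a := ψ s) (b := Real.pi / 2)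
      (f := fun φ => P s φ) (C := K ^ 2 * Real.exp (-2 * s)) (fun φ _ => by
        simp only [hP, hU, hUs]
        rw [norm_mul, norm_neg, norm_neg, Real.norm_eq_abs, Real.norm_eq_abs, ← hexp2]
        have h2 := (Complex.abs_im_le_norm (F (w s φ))).trans (hb0 s φ hs)
        have h3 := (Complex.abs_im_le_norm (F1 (w s φ))).trans (hb1 s φ hs)
        calc |(F (w s φ)).im| * |(F1 (w s φ)).im| ≤ (K * Real.exp (-s)) * (K * Real.exp (-s)) := by
              gcongr
          _ = _ := by ring)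
    refine h1.trans ?_
    have h2 := hψw s
    calc K ^ 2 * Real.exp (-2 * s) * |Real.pi / 2 - ψ s| ≤ K ^ 2 * Real.exp (-2 * s) * 2 := by gcongr
      _ = _ := by ring
  have hei : IntegrableOn (fun s : ℝ => Real.exp (-2 * s)) (Ioi 1) :=
    integrableOn_exp_mul_Ioi (by norm_num) 1
  -- continuity of `T` and `D`
  have hψc := hψ.cont
  have hψdc := hψ.dcont
  have hgraph : ∀ (Q : ℂ → ℂ), DifferentiableOn ℂ Q (HP c) →
      ContinuousOn (fun s : ℝ => Q (w s (ψ s))) (Ioi 1) := by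
    intro Q hQ
    have h1 : Continuous (fun s : ℝ => w s (ψ s)) := w_cont.comp (continuous_id.prodMk hψc)
    exact hQ.continuousOn.comp h1.continuousOn (fun s hs => hwm s _ (hc.trans hs))
  have cT : ContinuousOn (T F ψ) (Ioi 1) := by
    unfold T
    have h0 := hgraph F hF
    have h1 := hgraph F1 hd1
    exact ((Complex.continuous_re.comp_continuousOn h1).sub
      (hψdc.continuousOn.mul (Complex.continuous_im.comp_continuousOn h1))).mul
      (Complex.continuous_im.comp_continuousOn h0).neg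
  have cD : ContinuousOn (D F ψ) (Ioi 1) := by
    have h1 : ContinuousOn (Function.uncurry (fun s φ : ℝ => ‖F1 (w s φ)‖ ^ 2)) (Ioi c ×ˢ univ) :=
      (hc1.norm).pow 2
    intro s hs
    apply ContinuousAt.continuousWithinAt
    have h2 := cont_prim h1 (Real.pi / 2) (hc.trans hs) (ψ s)
    exact ContinuousAt.comp (f := fun s : ℝ => (s, ψ s)) h2 (continuousAt_id.prodMk hψc.continuousAt)
  have iT : IntegrableOn (T F ψ) (Ioi 1) := by
    refine (hei.const_mul ((1 + M) * K ^ 2)).mono' (cT.aestronglyMeasurable measurableSet_Ioi) ?_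
    filter_upwards [ae_restrict_mem measurableSet_Ioi] with s hs
    exact hTb s (le_of_lt hs)
  have iD : IntegrableOn (D F ψ) (Ioi 1) := by
    refine (hei.const_mul (2 * K ^ 2)).mono' (cD.aestronglyMeasurable measurableSet_Ioi) ?_
    filter_upwards [ae_restrict_mem measurableSet_Ioi] with s hs
    exact hDb s (le_of_lt hs)
  refine ⟨iT, iD, ?_⟩
  have hlim : Tendsto Y atTop (𝓝 0) := by
    have h1 : Tendsto (fun s : ℝ => 2 * K ^ 2 * Real.exp (-2 * s)) atTop (𝓝 0) := by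
      have h2 : Tendsto (fun s : ℝ => Real.exp (-2 * s)) atTop (𝓝 0) := by
        apply Real.tendsto_exp_atBot.comp
        exact tendsto_id.const_mul_atTop_of_neg (by norm_num)
      simpa using h2.const_mul (2 * K ^ 2)
    apply squeeze_zero_norm' _ h1
    filter_upwards [eventually_ge_atTop 1] with s hs
    exact hYb s hs
  have hfin := integral_Ioi_of_hasDerivAt_of_tendsto (f := Y) (f' := fun s => D F ψ s - T F ψ s)
    (a := 1) (m := 0) (dY 1 le_rfl).continuousAt.continuousWithinAt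
    (fun s hs => dY s (le_of_lt hs)) (iD.sub iT) hlim
  have hY1 : Y 1 = 0 := by
    simp only [hY]
    rw [hψ.mid 1 (by simp), intervalIntegral.integral_same]
  rw [hY1, sub_zero, integral_sub iD iT] at hfin
  linarith

end Pool.Agent.TH304.POS
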