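import Pool.Agent.TH304.POS.Energy

set_option autoImplicit false

open MeasureTheory Set Filter Topology
open scoped ENNReal NNReal

namespace Pool.Agent.TH304.POS

open Pool.Agent.TH268.NP

/-! ### the complex kernel -/

/-- `I e^{-z}` -/
noncomputable def ze (z : ℂ) : ℂ := Complex.I * Complex.exp (-z)

lemma ze_norm (z : ℂ) : ‖ze z‖ = Real.exp (-z.re) := by
  unfold ze
  rw [norm_mul, Complex.norm_I, one_mul, Complex.norm_exp, Complex.neg_re]

lemma ze_lt {z : ℂ} (hz : 0 < z.re) : ‖ze z‖ < 1 := by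
  rw [ze_norm, Real.exp_lt_one_iff]; linarith

lemma ze_deriv (z : ℂ) : HasDerivAt ze (-ze z) z := by
  unfold ze
  have h := ((hasDerivAt_id z).neg.cexp).const_mul Complex.I
  refine h.congr_deriv ?_
  simp

lemma slit_add {x : ℂ} (hx : ‖x‖ < 1) : 1 + x ∈ Complex.slitPlane := by
  left
  have h := Complex.abs_re_le_norm x
  have h2 := neg_abs_le x.re
  simp only [Complex.add_re, Complex.one_re]
  linarith

lemma slit_sub {x : ℂ} (hx : ‖x‖ < 1) : 1 - x ∈ Complex.slitPlane := by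
  have := slit_add (x := -x) (by rwa [norm_neg])
  rwa [← sub_eq_add_neg] at this

/-- the kernel, `(1/π) arctan (e^{-z})` -/
noncomputable def h (z : ℂ) : ℂ :=
  -(Complex.I / (2 * Real.pi)) * (Complex.log (1 + ze z) - Complex.log (1 - ze z))

/-- its derivative -/
noncomputable def h1 (z : ℂ) : ℂ := -(1 / (2 * Real.pi)) / Complex.cosh z

lemma ze_sq (z : ℂ) : ze z ^ 2 = -Complex.exp (-2 * z) := by
  unfold ze
  rw [mul_pow, Complex.I_sq, ← Complex.exp_nat_mul]
  push_cast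
  ring_nf

lemma cosh_ne {z : ℂ} (hz : 0 < z.re) : Complex.cosh z ≠ 0 := by
  intro h0
  have h1 : Real.sinh z.re ≤ ‖Complex.cosh z‖ := by
    rw [Complex.cosh, norm_div, Complex.norm_ofNat, Real.sinh_eq]
    have := norm_sub_norm_le (Complex.exp z) (-Complex.exp (-z))
    rw [norm_neg, sub_neg_eq_add, Complex.norm_exp, Complex.norm_exp, Complex.neg_re] at this
    linarith
  rw [h0, norm_zero] at h1
  have := Real.sinh_pos_iff.2 hz
  linarith

lemma cosh_norm_ge (z : ℂ) : Real.sinh z.re ≤ ‖Complex.cosh z‖ := by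
  rw [Complex.cosh, norm_div, Complex.norm_ofNat, Real.sinh_eq]
  have := norm_sub_norm_le (Complex.exp z) (-Complex.exp (-z))
  rw [norm_neg, sub_neg_eq_add, Complex.norm_exp, Complex.norm_exp, Complex.neg_re] at this
  linarith

lemma h_deriv {z : ℂ} (hz : 0 < z.re) : HasDerivAt h (h1 z) z := by
  have hlt := ze_lt hz
  have ha := slit_add hlt
  have hb := slit_sub hlt
  have d1 := ((ze_deriv z).const_add 1).clog ha
  have d2 := ((ze_deriv z).const_sub 1).clog hb
  have d3 := (d1.sub d2).const_mul (-(Complex.I / (2 * Real.pi)))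
  refine d3.congr_deriv ?_
  have ha0 : 1 + ze z ≠ 0 := Complex.slitPlane_ne_zero ha
  have hb0 : 1 - ze z ≠ 0 := Complex.slitPlane_ne_zero hb
  have hpi : (Real.pi : ℂ) ≠ 0 := by exact_mod_cast Real.pi_pos.ne'
  have hc := cosh_ne hz
  have e1 : -ze z / (1 + ze z) - -(-ze z) / (1 - ze z) = -2 * ze z / (1 - ze z ^ 2) := by
    have : 1 - ze z ^ 2 = (1 + ze z) * (1 - ze z) := by ring
    rw [this]
    field_simp
    ring
  have e2 : 1 - ze z ^ 2 = 2 * Complex.exp (-z) * Complex.cosh z := by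
    rw [ze_sq, Complex.cosh]
    have e3 : Complex.exp (-z) * Complex.exp z = 1 := by rw [← Complex.exp_add]; simp
    have e4 : Complex.exp (-z) * Complex.exp (-z) = Complex.exp (-2 * z) := by
      rw [← Complex.exp_add]; congr 1; ring
    calc 1 - -Complex.exp (-2 * z) = 1 + Complex.exp (-2 * z) := by ring
      _ = Complex.exp (-z) * Complex.exp z + Complex.exp (-z) * Complex.exp (-z) := by rw [e3, e4]
      _ = _ := by ring
  rw [e1, e2, h1]
  have hex : Complex.exp (-z) ≠ 0 := Complex.exp_ne_zero _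
  unfold ze
  field_simp
  rw [Complex.I_sq]

lemma sinh_ge4 {a : ℝ} (ha : 1 / 2 ≤ a) : Real.exp a / 4 ≤ Real.sinh a := by
  rw [Real.sinh_eq]
  have h1 : Real.exp (-a) = Real.exp a * Real.exp (-2 * a) := by
    rw [← Real.exp_add]; congr 1; ring
  have h2 : Real.exp (-2 * a) ≤ 1 / 2 := by
    have h3 : Real.exp (-2 * a) ≤ Real.exp (-1) := Real.exp_le_exp.2 (by linarith)
    have h4 : Real.exp (-1) ≤ 1 / 2 := by
      rw [Real.exp_neg, one_div]
      apply inv_anti₀ (by norm_num)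
      have := Real.exp_one_gt_d9
      linarith
    linarith
  have h5 := Real.exp_pos a
  rw [h1]
  nlinarith

lemma h1_bound {z : ℂ} (hz : 1 / 2 ≤ z.re) : ‖h1 z‖ ≤ Real.exp (-z.re) := by
  have h2 := cosh_norm_ge z
  have h3 := sinh_ge4 hz
  have hpi := Real.pi_gt_three
  have h5 := Real.exp_pos z.re
  unfold h1
  rw [norm_div, norm_neg, norm_div, norm_one, norm_mul, Complex.norm_ofNat, Complex.norm_real,
    Real.norm_of_nonneg Real.pi_pos.le, Real.exp_neg]
  have h6 : 0 < ‖Complex.cosh z‖ := lt_of_lt_of_le (by positivity) (h3.trans h2)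
  rw [div_le_iff₀ h6]
  calc 1 / (2 * Real.pi) ≤ 1 / 4 := by
        apply one_div_le_one_div_of_le <;> linarith
    _ = (Real.exp z.re)⁻¹ * (Real.exp z.re / 4) := by field_simp
    _ ≤ (Real.exp z.re)⁻¹ * ‖Complex.cosh z‖ := by gcongr; linarith

lemma h_bound {z : ℂ} (hz : 1 / 2 ≤ z.re) : ‖h z‖ ≤ Real.exp (-z.re) := by
  have hlt := ze_lt (z := z) (by linarith)
  have hpi := Real.pi_gt_three
  have h23 : ‖ze z‖ ≤ 2 / 3 := by
    rw [ze_norm]
    have h3 : Real.exp (-z.re) ≤ Real.exp (-(1 / 2)) := Real.exp_le_exp.2 (by linarith)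
    have h4 : Real.exp (-(1 / 2)) ≤ 2 / 3 := by
      rw [Real.exp_neg]
      have := Real.add_one_le_exp (1 / 2 : ℝ)
      rw [inv_le_comm₀ (Real.exp_pos _) (by norm_num)]
      linarith
    linarith
  have key : ∀ x : ℂ, ‖x‖ ≤ 2 / 3 → ‖Complex.log (1 + x)‖ ≤ 2 * ‖x‖ := by
    intro x hx
    have h1 := Complex.norm_log_one_add_le (z := x) (by linarith)
    have h2 : (1 - ‖x‖)⁻¹ ≤ 3 := by
      rw [inv_le_comm₀ (by linarith) (by norm_num)]
      linarith
    have h3 := norm_nonneg x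
    have h4 : 0 ≤ (1 - ‖x‖)⁻¹ := by
      apply inv_nonneg.2; linarith
    nlinarith [mul_nonneg h3 h3, mul_nonneg (mul_nonneg h3 h3) h4]
  have k1 := key (ze z) h23
  have k2 := key (-ze z) (by rwa [norm_neg])
  rw [← sub_eq_add_neg, norm_neg] at k2
  unfold h
  rw [norm_mul, norm_neg, norm_div, Complex.norm_I, norm_mul, Complex.norm_ofNat, Complex.norm_real,
    Real.norm_of_nonneg Real.pi_pos.le]
  have k3 := norm_sub_le (Complex.log (1 + ze z)) (Complex.log (1 - ze z))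
  rw [← ze_norm]
  calc 1 / (2 * Real.pi) * ‖Complex.log (1 + ze z) - Complex.log (1 - ze z)‖
      ≤ 1 / 4 * (2 * ‖ze z‖ + 2 * ‖ze z‖) := by
        gcongr
        · linarith
        · linarith
    _ = ‖ze z‖ := by ring

/-! ### the potential -/

/-- the support interval -/
def J : Set ℝ := Icc (-(1 / 2) : ℝ) (1 / 2)

/-- bounded measurable densities on `J` -/
structure Dens (f : ℝ → ℝ) (M : ℝ) : Prop where
  meas : Measurable f
  bd : ∀ t, |f t| ≤ M
  supp : ∀ t, t ∉ J → f t = 0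

lemma Dens.nonneg {f : ℝ → ℝ} {M : ℝ} (hf : Dens f M) : 0 ≤ M := (abs_nonneg _).trans (hf.bd 0)

/-- the complex potential -/
noncomputable def Fp (f : ℝ → ℝ) (z : ℂ) : ℂ := ∫ t in J, (f t : ℂ) * h (z - t)

/-- its derivative -/
noncomputable def Fp1 (f : ℝ → ℝ) (z : ℂ) : ℂ := ∫ t in J, (f t : ℂ) * h1 (z - t)

lemma vol_J : volume J = 1 := by
  unfold J; rw [Real.volume_Icc]; norm_num

lemma sub_mem {z : ℂ} (hz : 1 / 2 < z.re) {t : ℝ} (ht : t ∈ J) : 0 < (z - t).re := by
  rw [Complex.sub_re, Complex.ofReal_re]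
  have := ht.2
  linarith

lemma meas_h {f : ℝ → ℝ} {M : ℝ} (hf : Dens f M) {z : ℂ} (hz : 1 / 2 < z.re) :
    AEStronglyMeasurable (fun t : ℝ => (f t : ℂ) * h (z - t)) (volume.restrict J) := by
  have h1 : AEStronglyMeasurable (fun t : ℝ => (f t : ℂ)) (volume.restrict J) :=
    (Complex.measurable_ofReal.comp hf.meas).aestronglyMeasurable
  refine h1.mul ?_
  apply ContinuousOn.aestronglyMeasurable _ measurableSet_Icc
  intro t ht
  have h2 := (h_deriv (sub_mem hz ht)).continuousAt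
  have h3 : ContinuousAt (fun t : ℝ => z - (t : ℂ)) t := by fun_prop
  exact (ContinuousAt.comp (f := fun t : ℝ => z - (t : ℂ)) h2 h3).continuousWithinAt

lemma h1_cont {z : ℂ} (hz : 0 < z.re) : ContinuousAt h1 z := by
  unfold h1
  exact continuousAt_const.div Complex.continuous_cosh.continuousAt (cosh_ne hz)

lemma meas_h1 {f : ℝ → ℝ} {M : ℝ} (hf : Dens f M) {z : ℂ} (hz : 1 / 2 < z.re) :
    AEStronglyMeasurable (fun t : ℝ => (f t : ℂ) * h1 (z - t)) (volume.restrict J) := by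
  have h1 : AEStronglyMeasurable (fun t : ℝ => (f t : ℂ)) (volume.restrict J) :=
    (Complex.measurable_ofReal.comp hf.meas).aestronglyMeasurable
  refine h1.mul ?_
  apply ContinuousOn.aestronglyMeasurable _ measurableSet_Icc
  intro t ht
  have h2 := h1_cont (sub_mem hz ht)
  have h3 : ContinuousAt (fun t : ℝ => z - (t : ℂ)) t := by fun_prop
  exact (ContinuousAt.comp (f := fun t : ℝ => z - (t : ℂ)) h2 h3).continuousWithinAt

instance : IsFiniteMeasure (volume.restrict J) := ⟨by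
  rw [Measure.restrict_apply_univ, vol_J]; norm_num⟩

lemma h1_bound' {z : ℂ} {ε : ℝ} (hε : 0 < ε) (hz : ε ≤ z.re) : ‖h1 z‖ ≤ 1 / Real.sinh ε := by
  have h2 := cosh_norm_ge z
  have h3 : Real.sinh ε ≤ Real.sinh z.re := Real.sinh_le_sinh.2 hz
  have h4 := Real.sinh_pos_iff.2 hε
  have hpi := Real.pi_gt_three
  unfold h1
  rw [norm_div, norm_neg, norm_div, norm_one, norm_mul, Complex.norm_ofNat, Complex.norm_real,
    Real.norm_of_nonneg Real.pi_pos.le]
  have h5 : 1 / (2 * Real.pi) ≤ 1 := by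
    rw [div_le_one (by positivity)]; linarith
  gcongr
  exact h3.trans h2

lemma Fp_int {f : ℝ → ℝ} {M : ℝ} (hf : Dens f M) {z : ℂ} (hz : 1 / 2 < z.re) :
    Integrable (fun t : ℝ => (f t : ℂ) * h (z - t)) (volume.restrict J) := by
  have hM := hf.nonneg
  have hcomp : IsCompact J := isCompact_Icc
  have hcon : ContinuousOn (fun t : ℝ => h (z - t)) J := by
    intro t ht
    have h2 := (h_deriv (sub_mem hz ht)).continuousAt
    have h3 : ContinuousAt (fun t : ℝ => z - (t : ℂ)) t := by fun_prop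
    exact (ContinuousAt.comp (f := fun t : ℝ => z - (t : ℂ)) h2 h3).continuousWithinAt
  obtain ⟨C, hC⟩ := hcomp.exists_bound_of_continuousOn hcon
  have hC0 : 0 ≤ C := (norm_nonneg _).trans (hC 0 ⟨by norm_num, by norm_num⟩)
  refine Integrable.mono' (integrable_const (M * C)) (meas_h hf hz) ?_
  filter_upwards [ae_restrict_mem measurableSet_Icc] with t ht
  rw [norm_mul, Complex.norm_real, Real.norm_eq_abs]
  have h1 := hf.bd t
  have h2 := hC t ht
  gcongr

lemma Fp_deriv {f : ℝ → ℝ} {M : ℝ} (hf : Dens f M) {z : ℂ} (hz : 1 / 2 < z.re) :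
    Integrable (fun t : ℝ => (f t : ℂ) * h1 (z - t)) (volume.restrict J) ∧
    HasDerivAt (Fp f) (Fp1 f z) z := by
  obtain ⟨c, hc1, hc2⟩ := exists_between hz
  have hs : {x : ℂ | c < x.re} ∈ 𝓝 z := (HP_open c).mem_nhds hc2
  have hM := hf.nonneg
  have hmeas : ∀ᶠ x in 𝓝 z, AEStronglyMeasurable (fun t : ℝ => (f t : ℂ) * h (x - t))
      (volume.restrict J) := by
    filter_upwards [hs] with x hx
    exact meas_h hf (hc1.trans hx)
  have hint := Fp_int hf hz
  exact hasDerivAt_integral_of_dominated_loc_of_deriv_le (μ := volume.restrict J)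
    (F := fun (x : ℂ) (t : ℝ) => (f t : ℂ) * h (x - t))
    (F' := fun (x : ℂ) (t : ℝ) => (f t : ℂ) * h1 (x - t)) (x₀ := z)
    (s := {x : ℂ | c < x.re}) (bound := fun _ => M * (1 / Real.sinh (c - 1 / 2))) hs hmeas hint
    (meas_h1 hf hz)
    (by
      filter_upwards [ae_restrict_mem measurableSet_Icc] with t ht
      intro x hx
      rw [norm_mul, Complex.norm_real, Real.norm_eq_abs]
      have hft := hf.bd t
      have h2 : ‖h1 (x - t)‖ ≤ 1 / Real.sinh (c - 1 / 2) := by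
        apply h1_bound' (by linarith)
        rw [Complex.sub_re, Complex.ofReal_re]
        have h3 := ht.2
        have h4 : c < x.re := hx
        linarith
      gcongr)
    (integrable_const _)
    (by
      filter_upwards [ae_restrict_mem measurableSet_Icc] with t ht
      intro x hx
      have h4 : c < x.re := hx
      have h5 := h_deriv (sub_mem (hc1.trans h4) ht)
      have h6 : HasDerivAt (fun x : ℂ => x - (t : ℂ)) 1 x := (hasDerivAt_id x).sub_const _
      have h7 := (HasDerivAt.comp x h5 h6).const_mul (f t : ℂ)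
      simpa using h7)

lemma Fp_diffOn {f : ℝ → ℝ} {M : ℝ} (hf : Dens f M) : DifferentiableOn ℂ (Fp f) (HP (1 / 2)) :=
  fun _ hz => ((Fp_deriv hf hz).2).differentiableAt.differentiableWithinAt

lemma Fp_der {f : ℝ → ℝ} {M : ℝ} (hf : Dens f M) {z : ℂ} (hz : 1 / 2 < z.re) :
    deriv (Fp f) z = Fp1 f z := (Fp_deriv hf hz).2.deriv

lemma ker_int_bound {f : ℝ → ℝ} {M : ℝ} (hf : Dens f M) {k : ℂ → ℂ}
    (hk : ∀ z : ℂ, 1 / 2 ≤ z.re → ‖k z‖ ≤ Real.exp (-z.re)) {s : ℝ} (φ : ℝ) (hs : 1 ≤ s) :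
    ‖∫ t in J, (f t : ℂ) * k (w s φ - t)‖ ≤ (M * Real.exp (1 / 2)) * Real.exp (-s) := by
  have hM := hf.nonneg
  have h1 := norm_setIntegral_le_of_norm_le_const (μ := volume) (s := J)
    (f := fun t : ℝ => (f t : ℂ) * k (w s φ - t)) (C := (M * Real.exp (1 / 2)) * Real.exp (-s))
    (by rw [vol_J]; norm_num) (fun t ht => by
      rw [norm_mul, Complex.norm_real, Real.norm_eq_abs]
      have h2 : (w s φ - t).re = s - t := by simp
      have h3 := hk (w s φ - t) (by rw [h2]; have := ht.2; linarith)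
      rw [h2] at h3
      have h4 : Real.exp (-(s - t)) ≤ Real.exp (1 / 2) * Real.exp (-s) := by
        rw [← Real.exp_add]
        apply Real.exp_le_exp.2
        have := ht.2
        linarith
      have h5 := hf.bd t
      calc |f t| * ‖k (w s φ - t)‖ ≤ M * (Real.exp (1 / 2) * Real.exp (-s)) := by
            gcongr
            exact h3.trans h4
        _ = _ := by ring)
  refine h1.trans (le_of_eq ?_)
  rw [Measure.real, vol_J]
  simp

lemma Fp_b0 {f : ℝ → ℝ} {M : ℝ} (hf : Dens f M) (s φ : ℝ) (hs : 1 ≤ s) :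
    ‖Fp f (w s φ)‖ ≤ (M * Real.exp (1 / 2)) * Real.exp (-s) :=
  ker_int_bound hf (fun _ hz => h_bound hz) φ hs

lemma Fp_b1 {f : ℝ → ℝ} {M : ℝ} (hf : Dens f M) (s φ : ℝ) (hs : 1 ≤ s) :
    ‖deriv (Fp f) (w s φ)‖ ≤ (M * Real.exp (1 / 2)) * Real.exp (-s) := by
  rw [Fp_der hf (by rw [w_re]; linarith)]
  exact ker_int_bound hf (fun _ hz => h1_bound hz) φ hs

/-- value of the kernel on the middle line -/
lemma h1_mid (a : ℝ) : h1 (w a (Real.pi / 2)) = Complex.I * ((1 / (2 * Real.pi) / Real.sinh a : ℝ) : ℂ) := by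
  unfold h1 w
  have e1 : Complex.cosh ((a : ℂ) + ((Real.pi / 2 : ℝ) : ℂ) * Complex.I) =
      Complex.I * (Real.sinh a : ℝ) := by
    rw [Complex.cosh_add, Complex.cosh_mul_I, Complex.sinh_mul_I]
    push_cast
    rw [Complex.cos_pi_div_two, Complex.sin_pi_div_two]
    ring
  rw [e1]
  push_cast
  rw [div_mul_eq_div_div]
  have : (-(1 / (2 * (Real.pi : ℂ)))) / Complex.I = Complex.I * (1 / (2 * (Real.pi : ℂ))) := by
    rw [div_eq_iff Complex.I_ne_zero]
    ring_nf
    rw [Complex.I_sq]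
    ring
  rw [this]
  ring

lemma Fp1_mid {f : ℝ → ℝ} {M : ℝ} (hf : Dens f M) {s : ℝ} (hs : 1 ≤ s) :
    Fp1 f (w s (Real.pi / 2)) =
      Complex.I * ((∫ t in J, f t * (1 / (2 * Real.pi) / Real.sinh (s - t)) : ℝ) : ℂ) := by
  unfold Fp1
  have e1 : ∀ t : ℝ, (f t : ℂ) * h1 (w s (Real.pi / 2) - t) =
      Complex.I * ((f t * (1 / (2 * Real.pi) / Real.sinh (s - t)) : ℝ) : ℂ) := by
    intro t
    have : w s (Real.pi / 2) - (t : ℂ) = w (s - t) (Real.pi / 2) := by
      unfold w; push_cast; ring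
    rw [this, h1_mid]
    push_cast
    ring
  simp only [e1]
  rw [integral_const_mul, integral_complex_ofReal]

lemma Fp_re {f : ℝ → ℝ} {M : ℝ} (hf : Dens f M) (s : ℝ) (hs : 1 ≤ s) :
    (deriv (Fp f) (w s (Real.pi / 2))).re = 0 := by
  rw [Fp_der hf (by rw [w_re]; linarith), Fp1_mid hf hs]
  simp

/-- the energy identity for potentials -/
theorem pot_energy {f : ℝ → ℝ} {M : ℝ} (hf : Dens f M) {ψ : ℝ → ℝ} (hψ : Prof ψ) :
    IntegrableOn (T (Fp f) ψ) (Ioi 1) ∧ IntegrableOn (D (Fp f) ψ) (Ioi 1) ∧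
      ∫ s in Ioi (1 : ℝ), T (Fp f) ψ s = ∫ s in Ioi (1 : ℝ), D (Fp f) ψ s :=
  energy (c := 1 / 2) (by norm_num) (Fp_diffOn hf) hψ (Fp_b0 hf) (Fp_b1 hf) (Fp_re hf)

end Pool.Agent.TH304.POS
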