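import Pool.Agent.TH304.POS.Pot

set_option autoImplicit false

open MeasureTheory Set Filter Topology
open scoped ENNReal NNReal

namespace Pool.Agent.TH304.POS

open Pool.Agent.TH268.NP

/-! ### kernels on the curve -/

lemma w_sub (s φ r : ℝ) : w s φ - (r : ℂ) = w (s - r) φ := by
  unfold w; push_cast; ring

lemma cosh_pm {a : ℝ} (ha : 0 < a) (φ : ℝ) :
    0 < Real.cosh a + Real.sin φ ∧ 0 < Real.cosh a - Real.sin φ := by
  have h1 := Real.one_lt_cosh.2 ha.ne'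
  have h2 := Real.neg_one_le_sin φ
  have h3 := Real.sin_le_one φ
  constructor <;> linarith

lemma ze_w (a φ : ℝ) : (ze (w a φ)).re = Real.exp (-a) * Real.sin φ ∧
    (ze (w a φ)).im = Real.exp (-a) * Real.cos φ := by
  have e1 : ze (w a φ) = (Real.exp (-a) : ℂ) * (Real.sin φ + Real.cos φ * Complex.I) := by
    unfold ze w
    rw [neg_add, Complex.exp_add, ← neg_mul, Complex.exp_mul_I, Complex.cos_neg, Complex.sin_neg]
    push_cast
    ring_nf
    rw [Complex.I_sq]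
    ring
  rw [e1]
  constructor
  · rw [Complex.re_ofReal_mul]
    simp [-Complex.ofReal_sin, -Complex.ofReal_cos]
  · rw [Complex.im_ofReal_mul]
    simp [-Complex.ofReal_sin, -Complex.ofReal_cos]

lemma h_im {a : ℝ} (ha : 0 < a) (φ : ℝ) : -(h (w a φ)).im =
    1 / (4 * Real.pi) * Real.log ((Real.cosh a + Real.sin φ) / (Real.cosh a - Real.sin φ)) := by
  obtain ⟨z1, z2⟩ := ze_w a φ
  obtain ⟨p1, p2⟩ := cosh_pm ha φ
  have hpi := Real.pi_pos
  set q := Real.exp (-a) with hq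
  have hq0 : 0 < q := Real.exp_pos _
  have hcosh : Real.cosh a = (1 + q ^ 2) / (2 * q) := by
    rw [Real.cosh_eq, hq]
    have : Real.exp a = (Real.exp (-a))⁻¹ := by rw [Real.exp_neg, inv_inv]
    rw [this]
    field_simp
  have hA : ‖1 + ze (w a φ)‖ ^ 2 = 2 * q * (Real.cosh a + Real.sin φ) := by
    rw [← Complex.normSq_eq_norm_sq, Complex.normSq_apply, Complex.add_re, Complex.add_im, z1, z2,
      hcosh]
    simp only [Complex.one_re, Complex.one_im]
    have := Real.sin_sq_add_cos_sq φ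
    field_simp
    nlinarith
  have hB : ‖1 - ze (w a φ)‖ ^ 2 = 2 * q * (Real.cosh a - Real.sin φ) := by
    rw [← Complex.normSq_eq_norm_sq, Complex.normSq_apply, Complex.sub_re, Complex.sub_im, z1, z2,
      hcosh]
    simp only [Complex.one_re, Complex.one_im]
    have := Real.sin_sq_add_cos_sq φ
    field_simp
    nlinarith
  have hlogA : Real.log ‖1 + ze (w a φ)‖ = 1 / 2 * Real.log (2 * q * (Real.cosh a + Real.sin φ)) := by
    rw [← hA, Real.log_pow]; push_cast; ring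
  have hlogB : Real.log ‖1 - ze (w a φ)‖ = 1 / 2 * Real.log (2 * q * (Real.cosh a - Real.sin φ)) := by
    rw [← hB, Real.log_pow]; push_cast; ring
  have e1 : (h (w a φ)).im = -(1 / (2 * Real.pi)) *
      (Real.log ‖1 + ze (w a φ)‖ - Real.log ‖1 - ze (w a φ)‖) := by
    unfold h
    have e2 : -(Complex.I / (2 * (Real.pi : ℂ))) = ((-(1 / (2 * Real.pi)) : ℝ) : ℂ) * Complex.I := by
      push_cast; ring
    rw [e2, mul_assoc, Complex.im_ofReal_mul, Complex.I_mul_im, Complex.sub_re, Complex.log_re,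
      Complex.log_re]
  rw [e1, hlogA, hlogB, Real.log_mul (by positivity) p1.ne', Real.log_mul (by positivity) p2.ne',
    Real.log_div p1.ne' p2.ne']
  field_simp
  ring

lemma ψ_J {ψ : ℝ → ℝ} (hψ : Prof ψ) {t : ℝ} (ht : t ∈ J) : ψ t = Real.pi / 2 := by
  apply hψ.mid
  rw [abs_le]
  exact ⟨by linarith [ht.1], by linarith [ht.2]⟩

lemma GS_rel {ψ : ℝ → ℝ} (hψ : Prof ψ) {s r : ℝ} (hs : 1 ≤ s) (hr : r ∈ J) :
    GS ψ s r = -(h (w s (ψ s) - r)).im := by
  rw [w_sub, h_im (by linarith [hr.2])]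
  unfold GS G
  rw [ψ_J hψ hr, Real.cos_add, Real.cos_sub, Real.cos_pi_div_two, Real.sin_pi_div_two]
  congr 3
  · ring
  · ring

lemma cosh_w (a φ : ℝ) : (Complex.cosh (w a φ)).re = Real.cosh a * Real.cos φ ∧
    (Complex.cosh (w a φ)).im = Real.sinh a * Real.sin φ := by
  have e1 : Complex.cosh (w a φ) = (Real.cosh a * Real.cos φ : ℝ) +
      (Real.sinh a * Real.sin φ : ℝ) * Complex.I := by
    unfold w
    rw [Complex.cosh_add, Complex.cosh_mul_I, Complex.sinh_mul_I]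
    push_cast
    ring
  rw [e1]
  constructor <;> simp [-Complex.ofReal_mul, -Complex.ofReal_cosh, -Complex.ofReal_sinh]

lemma h1_w {a : ℝ} (ha : 0 < a) (φ : ℝ) :
    (h1 (w a φ)).re = -(1 / (2 * Real.pi)) * (Real.cosh a * Real.cos φ /
      ((Real.cosh a + Real.sin φ) * (Real.cosh a - Real.sin φ))) ∧
    (h1 (w a φ)).im = 1 / (2 * Real.pi) * (Real.sinh a * Real.sin φ /
      ((Real.cosh a + Real.sin φ) * (Real.cosh a - Real.sin φ))) := by
  obtain ⟨c1, c2⟩ := cosh_w a φ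
  have hn : Complex.normSq (Complex.cosh (w a φ)) =
      (Real.cosh a + Real.sin φ) * (Real.cosh a - Real.sin φ) := by
    rw [Complex.normSq_apply, c1, c2]
    have h1 := Real.sin_sq_add_cos_sq φ
    have h2 := Real.cosh_sq a
    have h3 : Real.cos φ ^ 2 = 1 - Real.sin φ ^ 2 := by linarith
    have h4 : Real.sinh a ^ 2 = Real.cosh a ^ 2 - 1 := by linarith
    calc Real.cosh a * Real.cos φ * (Real.cosh a * Real.cos φ) +
          Real.sinh a * Real.sin φ * (Real.sinh a * Real.sin φ)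
        = Real.cosh a ^ 2 * Real.cos φ ^ 2 + Real.sinh a ^ 2 * Real.sin φ ^ 2 := by ring
      _ = _ := by rw [h3, h4]; ring
  have e1 : h1 (w a φ) = ((-(1 / (2 * Real.pi)) : ℝ) : ℂ) * (Complex.cosh (w a φ))⁻¹ := by
    unfold h1; push_cast; ring
  rw [e1, Complex.re_ofReal_mul, Complex.im_ofReal_mul, Complex.inv_re, Complex.inv_im, hn, c1, c2]
  exact ⟨rfl, by ring⟩

lemma kk_rel {ψ : ℝ → ℝ} (hψ : Prof ψ) {s t : ℝ} (hs : 1 ≤ s) (ht : t ∈ J) :
    kk ψ t s = (h1 (w s (ψ s) - t)).re - deriv ψ s * (h1 (w s (ψ s) - t)).im := by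
  have ha : 0 < s - t := by linarith [ht.2]
  obtain ⟨e1, e2⟩ := h1_w ha (ψ s)
  obtain ⟨p1, p2⟩ := cosh_pm ha (ψ s)
  have hpi := Real.pi_pos
  rw [w_sub, e1, e2]
  unfold kk
  have s1 : Real.sinh (t - s) = -Real.sinh (s - t) := by rw [← Real.sinh_neg]; congr 1; ring
  have s2 : Real.cosh (t - s) = Real.cosh (s - t) := by rw [← Real.cosh_neg]; congr 1; ring
  rw [ψ_J hψ ht, Real.sin_add, Real.sin_sub, Real.cos_add, Real.cos_sub, Real.cos_pi_div_two,
    Real.sin_pi_div_two, s1, s2]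
  simp only [zero_mul, one_mul, zero_sub, zero_add, add_zero, sub_zero, sub_neg_eq_add]
  field_simp
  ring

lemma kk_mid {ψ : ℝ → ℝ} (hψ : Prof ψ) {s t : ℝ} (hs : |s| ≤ 1) (ht : t ∈ J) : kk ψ t s = 0 := by
  unfold kk
  rw [ψ_J hψ ht, hψ.mid s hs, hψ.deriv_mid hs]
  simp

/-- the double layer part -/
noncomputable def Bf (ψ f : ℝ → ℝ) (s : ℝ) : ℝ := ∫ t, kk ψ t s * f t
/-- the single layer part -/
noncomputable def Sf (ψ f : ℝ → ℝ) (s : ℝ) : ℝ := ∫ r, GS ψ s r * f r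

lemma int_J {f : ℝ → ℝ} {M : ℝ} (hf : Dens f M) (k : ℝ → ℝ) :
    ∫ t, k t * f t = ∫ t in J, k t * f t := by
  symm
  apply setIntegral_eq_integral_of_forall_compl_eq_zero
  intro t ht
  rw [hf.supp t ht, mul_zero]

lemma Sf_eq {ψ f : ℝ → ℝ} {M : ℝ} (hψ : Prof ψ) (hf : Dens f M) {s : ℝ} (hs : 1 ≤ s) :
    Sf ψ f s = -(Fp f (w s (ψ s))).im := by
  unfold Sf Fp
  have hi := Fp_int hf (z := w s (ψ s)) (by rw [w_re]; linarith)
  have h1 := Complex.imCLM.integral_comp_comm hi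
  have h2 : (∫ t in J, (f t : ℂ) * h (w s (ψ s) - t)).im =
      ∫ t in J, ((f t : ℂ) * h (w s (ψ s) - t)).im := h1.symm
  rw [h2, int_J hf, ← integral_neg]
  apply setIntegral_congr_fun measurableSet_Icc
  intro t ht
  simp only
  rw [GS_rel hψ hs ht, Complex.im_ofReal_mul]
  ring

lemma Bf_eq {ψ f : ℝ → ℝ} {M : ℝ} (hψ : Prof ψ) (hf : Dens f M) {s : ℝ} (hs : 1 ≤ s) :
    Bf ψ f s = (deriv (Fp f) (w s (ψ s))).re - deriv ψ s * (deriv (Fp f) (w s (ψ s))).im := by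
  have hz : 1 / 2 < (w s (ψ s)).re := by rw [w_re]; linarith
  rw [Fp_der hf hz]
  unfold Bf Fp1
  have hi := (Fp_deriv hf hz).1
  have h2 : (∫ t in J, (f t : ℂ) * h1 (w s (ψ s) - t)).im =
      ∫ t in J, ((f t : ℂ) * h1 (w s (ψ s) - t)).im := (Complex.imCLM.integral_comp_comm hi).symm
  have h3 : (∫ t in J, (f t : ℂ) * h1 (w s (ψ s) - t)).re =
      ∫ t in J, ((f t : ℂ) * h1 (w s (ψ s) - t)).re := (Complex.reCLM.integral_comp_comm hi).symm
  have i1 : Integrable (fun t : ℝ => ((f t : ℂ) * h1 (w s (ψ s) - t)).re) (volume.restrict J) :=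
    hi.re
  have i2 : Integrable (fun t : ℝ => ((f t : ℂ) * h1 (w s (ψ s) - t)).im) (volume.restrict J) :=
    hi.im
  rw [h2, h3, int_J hf, ← integral_const_mul, ← integral_sub i1 (i2.const_mul _)]
  apply setIntegral_congr_fun measurableSet_Icc
  intro t ht
  simp only
  rw [kk_rel hψ hs ht, Complex.im_ofReal_mul, Complex.re_ofReal_mul]
  ring

lemma prod_eq {ψ f : ℝ → ℝ} {M : ℝ} (hψ : Prof ψ) (hf : Dens f M) {s : ℝ} (hs : 1 ≤ s) :
    Bf ψ f s * Sf ψ f s = T (Fp f) ψ s := by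
  rw [Bf_eq hψ hf hs, Sf_eq hψ hf hs]; rfl

lemma Bf_mid {ψ f : ℝ → ℝ} {M : ℝ} (hψ : Prof ψ) (hf : Dens f M) {s : ℝ} (hs : |s| ≤ 1) :
    Bf ψ f s = 0 := by
  unfold Bf
  rw [int_J hf]
  have : ∀ t ∈ J, kk ψ t s * f t = 0 := by
    intro t ht
    rw [kk_mid hψ hs ht, zero_mul]
  rw [setIntegral_congr_fun (s := J) measurableSet_Icc this]
  simp

/-! ### reflection -/

lemma Prof_neg {ψ : ℝ → ℝ} (hψ : Prof ψ) : Prof (fun s => ψ (-s)) where
  smooth := hψ.smooth.comp contDiff_neg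
  lo := fun t => hψ.lo _
  hi := fun t => hψ.hi _
  mid := fun t ht => hψ.mid _ (by rwa [abs_neg])
  far := fun t ht => hψ.far _ (by rwa [abs_neg])

lemma Dens_neg {f : ℝ → ℝ} {M : ℝ} (hf : Dens f M) : Dens (fun s => f (-s)) M where
  meas := hf.meas.comp measurable_neg
  bd := fun t => hf.bd _
  supp := fun t ht => hf.supp _ (by
    intro h
    apply ht
    exact ⟨by linarith [h.2], by linarith [h.1]⟩)

lemma Sf_neg {ψ f : ℝ → ℝ} (s : ℝ) : Sf ψ f (-s) = Sf (fun s => ψ (-s)) (fun s => f (-s)) s := by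
  unfold Sf
  rw [← integral_neg_eq_self]
  congr 1
  funext r
  congr 1
  unfold GS G
  rw [show -s - -r = -(s - r) by ring, Real.cosh_neg]

lemma Bf_neg {ψ f : ℝ → ℝ} (s : ℝ) : Bf ψ f (-s) = Bf (fun s => ψ (-s)) (fun s => f (-s)) s := by
  unfold Bf
  rw [← integral_neg_eq_self]
  congr 1
  funext t
  congr 1
  unfold kk
  have e1 : deriv (fun s => ψ (-s)) s = -deriv ψ (-s) := by rw [deriv_comp_neg]
  rw [e1, show -t - -s = -(t - s) by ring, Real.cosh_neg, Real.sinh_neg]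
  ring_nf

lemma D_nonneg {F : ℂ → ℂ} {ψ : ℝ → ℝ} (hψ : Prof ψ) (s : ℝ) : 0 ≤ D F ψ s := by
  unfold D
  apply intervalIntegral.integral_nonneg (hψ.hi s)
  intro φ _
  positivity

/-- the form is the energy -/
theorem form_ge {ψ f : ℝ → ℝ} {M : ℝ} (hψ : Prof ψ) (hf : Dens f M) :
    ∫ s in Ioi (1 : ℝ), D (Fp f) ψ s ≤ ∫ s, Bf ψ f s * Sf ψ f s := by
  set Q : ℝ → ℝ := fun s => Bf ψ f s * Sf ψ f s with hQ
  obtain ⟨a1, a2, a3⟩ := pot_energy hf hψ
  obtain ⟨b1, b2, b3⟩ := pot_energy (Dens_neg hf) (Prof_neg hψ)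
  have q1 : ∀ s ∈ Ioi (1 : ℝ), T (Fp f) ψ s = Q s := fun s hs => (prod_eq hψ hf (le_of_lt hs)).symm
  have q2 : ∀ s ∈ Ioi (1 : ℝ), T (Fp (fun s => f (-s))) (fun s => ψ (-s)) s = Q (-s) := by
    intro s hs
    rw [hQ]
    simp only
    rw [Sf_neg, Bf_neg, prod_eq (Prof_neg hψ) (Dens_neg hf) (le_of_lt hs)]
  have q0 : ∀ s : ℝ, |s| ≤ 1 → Q s = 0 := by
    intro s hs
    rw [hQ]
    simp only
    rw [Bf_mid hψ hf hs, zero_mul]
  have i1 : IntegrableOn Q (Ioi 1) := a1.congr_fun q1 measurableSet_Ioi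
  have i2' : IntegrableOn (fun s => Q (-s)) (Ioi 1) := b1.congr_fun q2 measurableSet_Ioi
  have i2 : IntegrableOn Q (Iio (-1)) := by
    have h1 : IntegrableOn (fun s => Q (-s)) (Ioi (-(-1 : ℝ))) := by simpa using i2'
    have h2 := h1.comp_neg_Iio
    simpa using h2
  have i3 : IntegrableOn Q (Icc (-1) 1) := by
    apply IntegrableOn.congr_fun (f := fun _ => (0 : ℝ)) _ _ measurableSet_Icc
    · exact integrable_zero _ _ _
    · intro s hs
      exact (q0 s (abs_le.2 hs)).symm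
  have hIic : IntegrableOn Q (Iic 1) := by
    have : Iic (1 : ℝ) ⊆ Iio (-1) ∪ Icc (-1) 1 := by
      intro x hx
      rcases lt_or_ge x (-1) with h | h
      · left; exact h
      · right; exact ⟨h, hx⟩
    exact (i2.union i3).mono_set this
  have e1 := intervalIntegral.integral_Iic_add_Ioi hIic i1
  have e2 : ∫ s in Iic (1 : ℝ), Q s = ∫ s in Iic (-1 : ℝ), Q s := by
    apply setIntegral_eq_of_subset_of_forall_sdiff_eq_zero measurableSet_Iic
      (Iic_subset_Iic.2 (by norm_num))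
    intro s hs
    apply q0
    rw [abs_le]
    exact ⟨le_of_lt (not_le.1 hs.2), hs.1⟩
  have e3 : ∫ s in Iic (-1 : ℝ), Q s = ∫ s in Ioi (1 : ℝ), Q (-s) := by
    rw [integral_comp_neg_Ioi]
  have e4 : ∫ s in Ioi (1 : ℝ), Q (-s) =
      ∫ s in Ioi (1 : ℝ), D (Fp (fun s => f (-s))) (fun s => ψ (-s)) s := by
    rw [← b3]
    exact (setIntegral_congr_fun measurableSet_Ioi q2).symm
  have e5 : ∫ s in Ioi (1 : ℝ), Q s = ∫ s in Ioi (1 : ℝ), D (Fp f) ψ s := by
    rw [← a3]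
    exact (setIntegral_congr_fun measurableSet_Ioi q1).symm
  have e6 : 0 ≤ ∫ s in Ioi (1 : ℝ), D (Fp (fun s => f (-s))) (fun s => ψ (-s)) s :=
    setIntegral_nonneg measurableSet_Ioi fun s _ => D_nonneg (Prof_neg hψ) s
  rw [← e1, e2, e3, e4, e5]
  linarith

end Pool.Agent.TH304.POS
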